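import Pool.Agent.Helper68.ES.St5

/-!
# Project ES (MP_cb927e_an), module TYP: one type
-/

set_option autoImplicit false

open MeasureTheory Set Filter Topology
open scoped ENNReal RealInnerProductSpace

namespace Pool.Agent.Helper8.ES

open Pool.Agent.Helper68.ES Pool.Agent.Helper68.EP Pool.Agent.Helper20.RG
open Pool.Agent.Helper20.RL (RQ Rich BM Fml Hit)
open Pool.Agent.Helper68.LM (Pl BB Bd Av HL ft fm DQ)

/-- level sets are bounded and measurable -/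
theorem typ_BM (f : Pl → ℝ) (hf : BB f) (m : ℤ) : BM (Gf f m) := by
  obtain ⟨hm, K, hK1, hK2⟩ := hf
  refine ⟨?_, ?_⟩
  · have h1 : MeasurableSet {x | (2 : ℝ) ^ m ≤ f x} := measurableSet_le measurable_const hm
    have h2 : MeasurableSet {x | f x < (2 : ℝ) ^ (m + 1)} := measurableSet_lt hm measurable_const
    exact h1.inter h2
  · refine (Metric.isBounded_closedBall (x := (0 : Pl)) (r := K)).subset ?_
    rintro x ⟨hx1, -⟩
    rw [Metric.mem_closedBall, dist_zero_right]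
    by_contra hcon
    push Not at hcon
    have h0 := hK2 x hcon
    rw [h0] at hx1
    have : (0 : ℝ) < (2 : ℝ) ^ m := by positivity
    linarith

/-- numbers for large classes -/
theorem typ_num (p : ℝ) (hp1 : 1 < p) : ∃ u₁ : ℕ, 1 ≤ u₁ ∧ ∀ (w q : ℕ) (R : ℤ), u₁ ≤ w →
    (q : ℤ) = ⌊(p - 1) * w⌋ + R → |(R : ℝ)| ≤ (p - 1) / 16 * w → 6 ≤ q ∧ w ≤ 2 ^ (q - 3) := by
  obtain ⟨a, ha⟩ : ∃ a : ℝ, a = (p - 1) / 2 := ⟨_, rfl⟩
  have ha0 : 0 < a := by rw [ha]; linarith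
  have hr : (1 : ℝ) < (2 : ℝ) ^ a := Real.one_lt_rpow (by norm_num) ha0
  have ht := tendsto_pow_const_div_const_pow_of_one_lt 1 hr
  have hev : ∀ᶠ n : ℕ in atTop, (n : ℝ) ^ 1 / ((2 : ℝ) ^ a) ^ n < 1 :=
    ht.eventually (gt_mem_nhds one_pos)
  obtain ⟨n₀, hn₀⟩ := eventually_atTop.1 hev
  obtain ⟨n₁, hn₁⟩ := exists_nat_ge (10 / (p - 1))
  refine ⟨max (max n₀ n₁) 1, le_max_right _ _, ?_⟩
  intro w q R hw hq hR
  have hw0 : n₀ ≤ w := (le_max_left _ _).trans ((le_max_left _ _).trans hw)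
  have hw1 : n₁ ≤ w := (le_max_right _ _).trans ((le_max_left _ _).trans hw)
  have hp0 : 0 < p - 1 := by linarith
  have hw2 : 10 ≤ (p - 1) * w := by
    have h1 : (n₁ : ℝ) ≤ w := by exact_mod_cast hw1
    rw [div_le_iff₀ hp0] at hn₁
    nlinarith
  have h2 : (w : ℝ) < (2 : ℝ) ^ (a * w) := by
    have h := hn₀ w hw0
    rw [pow_one, div_lt_one (by positivity)] at h
    rwa [← Real.rpow_mul_natCast (by norm_num)] at h
  have h3 : (q : ℝ) = (⌊(p - 1) * w⌋ : ℝ) + R := by exact_mod_cast hq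
  have h4 : (p - 1) * w - 1 < (⌊(p - 1) * w⌋ : ℝ) := Int.sub_one_lt_floor _
  have h5 := (abs_le.1 hR).1
  have h6 : a * w + 3 ≤ (q : ℝ) := by
    rw [ha, h3]
    linarith
  have h7 : (6 : ℝ) ≤ q := by
    have : (5 : ℝ) ≤ a * w := by rw [ha]; linarith
    linarith
  have h8 : 6 ≤ q := by exact_mod_cast h7
  refine ⟨h8, ?_⟩
  have h9 : (w : ℝ) ≤ (2 : ℝ) ^ (q - 3) := by
    refine h2.le.trans ?_
    rw [← Real.rpow_natCast]
    refine Real.rpow_le_rpow_of_exponent_le (by norm_num) ?_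
    rw [Nat.cast_sub (by omega)]
    push_cast
    linarith
  exact_mod_cast h9

/-- the sum over the levels -/
theorem typ_sum (p : ℝ) (g : ℤ → ℕ → ℝ≥0∞) :
    ∑' l : ℤ, ENNReal.ofReal ((2 : ℝ) ^ (p * l)) * ∑' w : ℕ, g (l + (w : ℤ)) w =
    ∑' h : ℤ, ENNReal.ofReal ((2 : ℝ) ^ (p * h)) *
      ∑' w : ℕ, ENNReal.ofReal ((2 : ℝ) ^ (-(p * w))) * g h w := by
  calc ∑' l : ℤ, ENNReal.ofReal ((2 : ℝ) ^ (p * l)) * ∑' w : ℕ, g (l + (w : ℤ)) w
      = ∑' l : ℤ, ∑' w : ℕ, ENNReal.ofReal ((2 : ℝ) ^ (p * l)) * g (l + (w : ℤ)) w :=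
        tsum_congr fun l => (ENNReal.tsum_mul_left).symm
    _ = ∑' w : ℕ, ∑' l : ℤ, ENNReal.ofReal ((2 : ℝ) ^ (p * l)) * g (l + (w : ℤ)) w :=
        ENNReal.tsum_comm
    _ = ∑' w : ℕ, ∑' h : ℤ, ENNReal.ofReal ((2 : ℝ) ^ (p * h)) *
          (ENNReal.ofReal ((2 : ℝ) ^ (-(p * w))) * g h w) := by
        refine tsum_congr fun w => ?_
        rw [← (Equiv.addRight (w : ℤ)).tsum_eq (fun h : ℤ => ENNReal.ofReal ((2 : ℝ) ^ (p * h)) *
          (ENNReal.ofReal ((2 : ℝ) ^ (-(p * w))) * g h w))]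
        refine tsum_congr fun l => ?_
        simp only [Equiv.coe_addRight]
        rw [← mul_assoc, ← ENNReal.ofReal_mul (by positivity), ← Real.rpow_add (by norm_num)]
        congr 3
        push_cast
        ring
    _ = ∑' h : ℤ, ∑' w : ℕ, ENNReal.ofReal ((2 : ℝ) ^ (p * h)) *
          (ENNReal.ofReal ((2 : ℝ) ^ (-(p * w))) * g h w) := ENNReal.tsum_comm
    _ = _ := tsum_congr fun h => ENNReal.tsum_mul_left

/-- no directions, no points -/
theorem typ_empty (E : Set Pl) (u q : ℕ) (sl : ℕ → ℝ) (fl : ℕ → ℕ) (cc : ℕ → Pl) (D θ m : ℝ) (k : ℤ)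
    (hm : 0 < m) : Xk E u q ∅ sl fl cc D θ m k = ∅ := by
  refine Set.eq_empty_iff_forall_notMem.2 fun x hx => ?_
  have h1 := hx.1
  have h2 : {j : ℕ | j ∈ (∅ : Finset ℕ) ∧ Hit (sl j) (cc j) (fl j) u k
      {y | Rich (Eg E D q k) (sl j) (k - (u : ℤ)) (k - (fl j : ℤ)) θ y} x} = ∅ := by
    refine Set.eq_empty_iff_forall_notMem.2 fun j hj => ?_
    exact absurd hj.1 (Finset.notMem_empty j)
  rw [h2, Set.ncard_empty, Nat.cast_zero] at h1
  linarith

theorem typ_sz (R Y β : ℤ) : 0 ≤ sz R Y β ∧ |(R : ℝ)| ≤ sz R Y β := by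
  unfold sz
  have h1 := abs_nonneg (R : ℝ)
  have h2 := abs_nonneg (Y : ℝ)
  have h3 := abs_nonneg (β : ℝ)
  exact ⟨by linarith, by linarith⟩

open Classical in
theorem hTYP (hMKV : StMKV) (hJCL : StJCL) (hJCN : StJCN) (hFUS : StFUS) (hMAI : Pool.Agent.Helper68.ES.StMAI)
    (hGDC : StGDC) (hLSQ : Pool.Agent.Helper61.EPL.StLSQ) : Pool.Agent.Helper68.ES.StTYP := by
  intro p hp1 hp2 hpp
  obtain ⟨δ₀, c₃, e₁, hδ₀, hc₃, he₁, hM⟩ := hMAI p hp1 hp2 hpp
  refine ⟨δ₀, c₃, min e₁ ((p - 1) / 16), hδ₀, hc₃, lt_min he₁ (by linarith), min_le_right _ _, ?_⟩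
  intro P Cf c δ hPp hPs hCf hc hc1 hδ hδ₀'
  obtain ⟨e, he⟩ : ∃ e, e = min e₁ ((p - 1) / 16) := ⟨_, rfl⟩
  rw [← he]
  have he0 : 0 < e := by rw [he]; exact lt_min he₁ (by linarith)
  have hee₁ : e ≤ e₁ := by rw [he]; exact min_le_left _ _
  have hep : e ≤ (p - 1) / 16 := by rw [he]; exact min_le_right _ _
  by_cases hA : 0 < P.A
  swap
  · exact ⟨0, 1, le_rfl, fun φ τ ct R Y β f _ hA' => absurd hA' hA⟩
  obtain ⟨uG, CG, huG, hCG, hG⟩ := hGDC P e he0 (by linarith)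
  obtain ⟨CF, hCF, hF⟩ := hFUS P.A p hA hp1 hp2
  obtain ⟨CL, hCL, hL⟩ := hLSQ p hp1 hp2
  have hlog : 0 ≤ Real.logb 2 CG := Real.logb_nonneg (by norm_num) hCG
  obtain ⟨C₁, hC₁⟩ : ∃ C₁ : ℝ, C₁ = CG + CF + 15 + Real.logb 2 CG := ⟨_, rfl⟩
  have hC₁1 : 1 ≤ C₁ := by rw [hC₁]; linarith
  obtain ⟨uM, CM, hCM, hM'⟩ := hM P.A Cf C₁ c δ P.hA hCf hC₁1 hc hc1 hδ hδ₀'
  obtain ⟨uN, huN, hN⟩ := typ_num p hp1
  obtain ⟨u₀, hu₀⟩ : ∃ u₀ : ℕ, u₀ = max (max uG uM) uN := ⟨_, rfl⟩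
  have hu₀G : uG ≤ u₀ := by rw [hu₀]; exact (le_max_left _ _).trans (le_max_left _ _)
  have hu₀M : uM ≤ u₀ := by rw [hu₀]; exact (le_max_right _ _).trans (le_max_left _ _)
  have hu₀N : uN ≤ u₀ := by rw [hu₀]; exact le_max_right _ _
  refine ⟨u₀, 2 * CM, by linarith, ?_⟩
  intro φ τ ct R Y β f hGr _ hgap hSy hct hBB hf0
  obtain ⟨n', hn'⟩ : ∃ n', n' = nn c δ R Y β := ⟨_, rfl⟩
  have hn1 : 1 ≤ n' := by rw [hn']; exact le_max_left _ _
  have hn0 : 0 < n' := by linarith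
  obtain ⟨al, hal⟩ : ∃ al : ℝ, al = CG / n' := ⟨_, rfl⟩
  have hal0 : 0 < al := by rw [hal]; positivity
  obtain ⟨hsz0, hszR⟩ := typ_sz R Y β
  -- the levels of the class `w`
  obtain ⟨Q, hQ⟩ : ∃ Q : ℕ → ℕ, Q = fun w : ℕ => (⌊(p - 1) * w⌋ + R).toNat := ⟨_, rfl⟩
  obtain ⟨L, hLdef⟩ : ∃ L : ℕ → ℕ, L = fun w : ℕ => (⌊(w : ℝ) / p⌋ + Y).toNat := ⟨_, rfl⟩
  obtain ⟨J, hJ⟩ : ∃ J : ℕ → Finset ℕ, J = fun w => Jf P.p (dat τ) al β w (Q w) (L w) := ⟨_, rfl⟩
  obtain ⟨Good, hGood⟩ : ∃ Good : ℕ → Prop, Good = fun w => u₀ ≤ w ∧ Cfg p e R Y β w (Q w) (L w) :=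
    ⟨_, rfl⟩
  obtain ⟨Bx, hBx⟩ : ∃ Bx : Set Pl → ℕ → Set Pl, Bx = fun E w => ⋃ k : ℤ,
      Xk E w (Q w) (J w) ((dat τ).sl w) ((dat τ).fl w) (ct w) (DD P w) (th (L w)) (mb (L w) β) k :=
    ⟨_, rfl⟩
  have hGd : ∀ w, Good w → 1 ≤ w ∧ 6 ≤ Q w ∧ w ≤ 2 ^ (Q w - 3) := by
    intro w hw
    rw [hGood] at hw
    have h1 := hw.2.adm
    have h2 : |(R : ℝ)| ≤ (p - 1) / 16 * w := by
      have h3 : e * w ≤ (p - 1) / 16 * w := mul_le_mul_of_nonneg_right hep (Nat.cast_nonneg _)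
      linarith
    have h3 := hN w (Q w) R (hu₀N.trans hw.1) hw.2.hq h2
    exact ⟨huN.trans (hu₀N.trans hw.1), h3.1, h3.2⟩
  -- one set
  have key : ∀ E : Set Pl, BM E → ∑' w : ℕ, ENNReal.ofReal ((2 : ℝ) ^ (-(p * w))) *
      (if Good w then volume (Bx E w) else 0) ≤
      ENNReal.ofReal (CM * n' * (2 : ℝ) ^ (-(c₃ * sz R Y β))) * volume E := by
    intro E hE
    rw [ENNReal.tsum_eq_iSup_sum]
    refine iSup_le fun W₀ => ?_
    obtain ⟨W, hW⟩ : ∃ W : Finset ℕ, W = W₀.filter Good := ⟨_, rfl⟩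
    have hWG : ∀ w ∈ W, Good w := by
      intro w hw
      rw [hW] at hw
      exact (Finset.mem_filter.1 hw).2
    have hsum : ∑ w ∈ W₀, ENNReal.ofReal ((2 : ℝ) ^ (-(p * w))) *
        (if Good w then volume (Bx E w) else 0) =
        ∑ w ∈ W, ENNReal.ofReal ((2 : ℝ) ^ (-(p * w))) * volume (Bx E w) := by
      rw [hW, Finset.sum_filter]
      refine Finset.sum_congr rfl fun w _ => ?_
      by_cases h : Good w
      · rw [if_pos h, if_pos h]
      · rw [if_neg h, if_neg h, mul_zero]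
    rw [hsum]
    by_cases hne : ∃ w ∈ W, (J w).Nonempty
    · obtain ⟨w₁, hw₁, j₁, hj₁⟩ := hne
      have hg₁ := hGd w₁ (hWG w₁ hw₁)
      have hcfg₁ : Cfg p e R Y β w₁ (Q w₁) (L w₁) := by
        have := hWG w₁ hw₁
        rw [hGood] at this
        exact this.2
      rw [hJ] at hj₁
      have hj₁' := ((hJCL P (dat τ) al β w₁ (Q w₁) (L w₁) hSy hg₁.1 hal0.le).1 j₁).1 hj₁
      have hc₁ := hJCN P (dat τ) e al R Y β w₁ (Q w₁) (L w₁) j₁ hSy hg₁.1 hg₁.2.1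
        (by rw [hPp]; exact hcfg₁) hj₁'
      have hlogal : Real.logb 2 al = Real.logb 2 CG - Real.logb 2 n' := by
        rw [hal, Real.logb_div (by positivity) (by positivity)]
      have hcond : (R : ℝ) + p * Y + p * β ≤ C₁ - Real.logb 2 (nn c δ R Y β) := by
        have h1 := hc₁.2
        rw [hPp, hlogal] at h1
        rw [← hn', hC₁]
        linarith
      have hal1 : al ≤ C₁ / nn c δ R Y β := by
        rw [← hn', hal]
        refine div_le_div_of_nonneg_right ?_ hn0.le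
        rw [hC₁]
        linarith
      have hcls : ∀ w ∈ W, uM ≤ w ∧ Cfg p e₁ R Y β w (Q w) (L w) ∧
          Cls p P.A al w (Q w) (J w) ((dat τ).sl w) ∧ 0 < DD P w ∧
          ∀ j ∈ J w, ‖ct w j‖ ≤ Cf ∧ w ≤ (dat τ).fl w j + 1 := by
        intro w hw
        have hg := hGd w (hWG w hw)
        have hgw := hWG w hw
        rw [hGood] at hgw
        have hjc := hJCL P (dat τ) al β w (Q w) (L w) hSy hg.1 hal0.le
        refine ⟨hu₀M.trans hgw.1, ⟨hgw.2.hq, hgw.2.hi, hgw.2.adm.trans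
          (mul_le_mul_of_nonneg_right hee₁ (Nat.cast_nonneg _))⟩, ?_, ?_, ?_⟩
        · have h := hjc.2
          rw [hPp] at h
          rw [hJ, hPp]
          exact h
        · unfold DD
          positivity
        · intro j hj
          rw [hJ] at hj
          have hj2 : j < 2 ^ w := by
            have := (hjc.1 j).1 hj
            exact this.1
          exact ⟨hct w j hg.1 hj2, (hSy.flat w j hg.1 hj2).1⟩
      have hfus : ∑ w ∈ W, ((J w).card : ℝ) * (2 : ℝ) ^ (-(w : ℤ)) ≤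
          C₁ * (2 : ℝ) ^ (C₁ * sz R Y β) := by
        have h1 := hF φ τ P e al R Y β W Q L hGr hgap hPp rfl hSy (fun w hw => by
          have hg := hGd w (hWG w hw)
          have hgw := hWG w hw
          rw [hGood] at hgw
          exact ⟨hg.1, by omega, hg.2.2, hgw.2⟩)
        have h2 : ∑ w ∈ W, ((J w).card : ℝ) * (2 : ℝ) ^ (-(w : ℤ)) ≤
            CF * (2 : ℝ) ^ (CF * sz R Y β) := by
          rw [hJ, hPp]
          exact h1
        refine h2.trans ?_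
        have h3 : CF ≤ C₁ := by rw [hC₁]; linarith
        have h4 : (2 : ℝ) ^ (CF * sz R Y β) ≤ (2 : ℝ) ^ (C₁ * sz R Y β) :=
          Real.rpow_le_rpow_of_exponent_le (by norm_num) (mul_le_mul_of_nonneg_right h3 hsz0)
        exact mul_le_mul h3 h4 (by positivity) (by linarith)
      have hres := hM' R Y β W Q L J (dat τ).sl (dat τ).fl ct (fun w => DD P w) al E hE hal0.le hal1
        hcond hcls hfus
      rw [← hn'] at hres
      rw [hBx]
      exact hres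
    · push Not at hne
      have h0 : ∀ w ∈ W, ENNReal.ofReal ((2 : ℝ) ^ (-(p * w))) * volume (Bx E w) = 0 := by
        intro w hw
        have h1 : J w = ∅ := hne w hw
        have h2 : Bx E w = ∅ := by
          rw [hBx]
          refine Set.iUnion_eq_empty.2 fun k => ?_
          rw [h1]
          refine typ_empty _ _ _ _ _ _ _ _ _ _ ?_
          unfold mb
          positivity
        rw [h2, measure_empty, mul_zero]
      rw [Finset.sum_eq_zero h0]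
      exact bot_le
  -- the set is contained in the set of MKV
  have hpt : ∀ l : ℤ, volume {x | ∃ (k : ℤ) (V : Finset ℕ) (q i : ℕ → ℕ),
      nn c δ R Y β ≤ (V.card : ℝ) ∧
      (∀ w ∈ V, u₀ ≤ w ∧ Ac P (dat τ) ct e R Y β w (q w) (i w) k (Gf f (l + (w : ℤ))) x) ∧
      ∀ w ∈ V, ∀ u ∈ V, w ≤ u → ((Fp P (dat τ) ct w u (q w) (q u) (i w) (i u) k (Gf f (l + (w : ℤ)))
        (Gf f (l + (u : ℤ))) x).ncard : ℝ) < mb (i w) β * mb (i u) β / 16} ≤
      ENNReal.ofReal (2 / n') * ∑' w : ℕ, (if Good w then volume (Bx (Gf f (l + (w : ℤ))) w) else 0) := by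
    intro l
    have h1 := hMKV ℕ (fun w => if Good w then Bx (Gf f (l + (w : ℤ))) w else ∅) (n' / 2)
      (by positivity)
    have h2 : (1 : ℝ) / (n' / 2) = 2 / n' := by field_simp
    rw [h2] at h1
    have h3 : ∀ w : ℕ, volume (if Good w then Bx (Gf f (l + (w : ℤ))) w else ∅) =
        (if Good w then volume (Bx (Gf f (l + (w : ℤ))) w) else 0) := by
      intro w
      by_cases h : Good w
      · rw [if_pos h, if_pos h]
      · rw [if_neg h, if_neg h, measure_empty]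
    refine le_trans (measure_mono ?_) (h1.trans (le_of_eq (by rw [tsum_congr h3])))
    rintro x ⟨k, V, q, i, hcard, hAc, hFp⟩
    rw [← hn'] at hcard
    obtain ⟨V', hV', hVc, hX⟩ := hG (dat τ) ct R Y β V q i k x (fun w => Gf f (l + (w : ℤ))) n' hSy
      (fun w => typ_BM f hBB _) hn0 hcard (fun w hw => ⟨hu₀G.trans (hAc w hw).1, (hAc w hw).2⟩) hFp
    refine ⟨V', fun w hw => ?_, by linarith⟩
    have hcfg := (hAc w (hV' hw)).2.cfg
    rw [hPp] at hcfg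
    have hq : q w = Q w := by
      rw [hQ]
      have := hcfg.hq
      show q w = (⌊(p - 1) * w⌋ + R).toNat
      omega
    have hi : i w = L w := by
      rw [hLdef]
      have := hcfg.hi
      show i w = (⌊(w : ℝ) / p⌋ + Y).toNat
      omega
    have hg : Good w := by
      rw [hGood]
      refine ⟨(hAc w (hV' hw)).1, ?_⟩
      rw [← hq, ← hi]
      exact hcfg
    have hx := hX w hw
    show x ∈ (if Good w then Bx (Gf f (l + (w : ℤ))) w else ∅)
    rw [if_pos hg, hBx]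
    refine Set.mem_iUnion.2 ⟨k, ?_⟩
    have hJw : J w = Jf P.p (dat τ) (CG / n') β w (q w) (i w) := by
      rw [hJ, hal, hq, hi]
    rw [hJw, ← hq, ← hi]
    exact hx
  refine (ENNReal.tsum_le_tsum fun l => mul_le_mul_right (hpt l) _).trans ?_
  calc ∑' l : ℤ, ENNReal.ofReal ((2 : ℝ) ^ (p * l)) * (ENNReal.ofReal (2 / n') *
        ∑' w : ℕ, (if Good w then volume (Bx (Gf f (l + (w : ℤ))) w) else 0))
      = ENNReal.ofReal (2 / n') * ∑' l : ℤ, ENNReal.ofReal ((2 : ℝ) ^ (p * l)) *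
        ∑' w : ℕ, (if Good w then volume (Bx (Gf f (l + (w : ℤ))) w) else 0) := by
        rw [← ENNReal.tsum_mul_left]
        refine tsum_congr fun l => ?_
        ring
    _ = ENNReal.ofReal (2 / n') * ∑' h : ℤ, ENNReal.ofReal ((2 : ℝ) ^ (p * h)) *
        ∑' w : ℕ, ENNReal.ofReal ((2 : ℝ) ^ (-(p * w))) *
          (if Good w then volume (Bx (Gf f h) w) else 0) := by
        rw [typ_sum p (fun h w => if Good w then volume (Bx (Gf f h) w) else 0)]
    _ ≤ ENNReal.ofReal (2 / n') * ∑' h : ℤ, ENNReal.ofReal ((2 : ℝ) ^ (p * h)) *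
        (ENNReal.ofReal (CM * n' * (2 : ℝ) ^ (-(c₃ * sz R Y β))) * volume (Gf f h)) := by
        refine mul_le_mul_right (ENNReal.tsum_le_tsum fun h => ?_) _
        exact mul_le_mul_right (key _ (typ_BM f hBB h)) _
    _ = ENNReal.ofReal (2 / n') * ENNReal.ofReal (CM * n' * (2 : ℝ) ^ (-(c₃ * sz R Y β))) *
        ∑' h : ℤ, ENNReal.ofReal ((2 : ℝ) ^ (p * h)) * volume (Gf f h) := by
        obtain ⟨T, hT⟩ : ∃ T, T = ENNReal.ofReal (CM * n' * (2 : ℝ) ^ (-(c₃ * sz R Y β))) :=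
          ⟨_, rfl⟩
        rw [← hT, mul_assoc, ← ENNReal.tsum_mul_left (a := T)]
        congr 1
        refine tsum_congr fun h => ?_
        ring
    _ ≤ ENNReal.ofReal (2 / n') * ENNReal.ofReal (CM * n' * (2 : ℝ) ^ (-(c₃ * sz R Y β))) *
        ∫⁻ x, ENNReal.ofReal (f x) ^ p := mul_le_mul_right (hL f hBB.1 hf0).2.2.1 _
    _ = _ := by
        rw [← ENNReal.ofReal_mul (by positivity)]
        congr 2
        field_simp

end Pool.Agent.Helper8.ES
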